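import Mathlib

/-!
# Core and nucleus of a graph: definitions
-/

set_option autoImplicit false

namespace Pool.Agent.Q230.CN

open Finset

variable {V : Type} [Fintype V] [DecidableEq V]

open Classical in
/-- `N(X)`: the vertices adjacent to some vertex of `X`. -/
noncomputable def nbr (G : SimpleGraph V) (X : Finset V) : Finset V :=
  univ.filter fun v => ∃ x ∈ X, G.Adj x v

/-- `d(X) = |X| - |N(X)|`. -/
noncomputable def diff (G : SimpleGraph V) (X : Finset V) : ℤ := X.card - (nbr G X).card

/-- `I` is a critical independent set. -/
def Critical (G : SimpleGraph V) (I : Finset V) : Prop :=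
  G.IsIndepSet (I : Set V) ∧ ∀ J : Finset V, G.IsIndepSet (J : Set V) → diff G J ≤ diff G I

/-- `I` is a maximum critical independent set. -/
def MaxCritical (G : SimpleGraph V) (I : Finset V) : Prop :=
  Critical G I ∧ ∀ J : Finset V, Critical G J → J.card ≤ I.card

open Classical in
/-- `core(G)`: the intersection of all maximum independent sets. -/
noncomputable def core (G : SimpleGraph V) : Finset V :=
  univ.filter fun v => ∀ I : Finset V, G.IsMaximumIndepSet I → v ∈ I

open Classical in
/-- `nucleus(G)`: the intersection of all maximum critical independent sets. -/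
noncomputable def nucleus (G : SimpleGraph V) : Finset V :=
  univ.filter fun v => ∀ I : Finset V, MaxCritical G I → v ∈ I

/-! ### Graphs as adjacency matrices -/

/-- The entry in row `i` and column `j`. -/
def ent (M : List (List Bool)) (i j : ℕ) : Bool := (M.getD i []).getD j false

/-- `M` is an adjacency matrix: square, symmetric, zero on the diagonal. -/
def IsAdjMatrix (M : List (List Bool)) : Prop :=
  (∀ r ∈ M, r.length = M.length) ∧
    (∀ i < M.length, ∀ j < M.length, ent M i j = ent M j i) ∧ ∀ i < M.length, ent M i i = false

/-- The graph with adjacency matrix `M`. -/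
def graphOf (M : List (List Bool)) : SimpleGraph (Fin M.length) where
  Adj i j := i ≠ j ∧ (ent M i j = true ∨ ent M j i = true)
  symm := ⟨fun _ _ h => ⟨h.1.symm, h.2.symm⟩⟩
  loopless := ⟨fun _ h => h.1 rfl⟩

/-- The decision problem: `M` is the adjacency matrix of a graph with `core = nucleus`. -/
def CoreIsNucleus (M : List (List Bool)) : Prop :=
  IsAdjMatrix M ∧ core (graphOf M) = nucleus (graphOf M)

end Pool.Agent.Q230.CN
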