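import Pool.Agent.Q230.CN.Main
import Pool.Agent.H642R2.TGPoly
import Pool.Agent.NPC.Dec

/-!
# Deciding whether core and nucleus are equal is NP-hard and coNP-hard
-/

set_option autoImplicit false

namespace Pool.Agent.Q230.CN

open Pool.Agent.NPC
open Pool.Agent.NPC.TG (Cl cl ocf poly_ocf poly_mulc poly_addc poly_subc poly_divc poly_modc
  sat_iff cl_mem)

/-- the matrix of a function -/
def mat (N : ℕ) (a : ℕ → ℕ → Bool) : List (List Bool) :=
  (List.range N).map fun i => (List.range N).map fun j => a i j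

theorem length_mat (N : ℕ) (a : ℕ → ℕ → Bool) : (mat N a).length = N := by simp [mat]

theorem ent_mat {N : ℕ} {a : ℕ → ℕ → Bool} {i j : ℕ} (hi : i < N) (hj : j < N) :
    ent (mat N a) i j = a i j := by
  unfold ent mat
  have h1 : i < ((List.range N).map fun i => (List.range N).map fun j => a i j).length := by
    simpa using hi
  rw [List.getD_eq_getElem _ _ h1, List.getElem_map, List.getElem_range]
  have h2 : j < ((List.range N).map fun j => a i j).length := by simpa using hj
  rw [List.getD_eq_getElem _ _ h2, List.getElem_map, List.getElem_range]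

theorem isAdj_mat {N : ℕ} {a : ℕ → ℕ → Bool} (h0 : ∀ i, a i i = false)
    (hs : ∀ i j, a i j = a j i) : IsAdjMatrix (mat N a) := by
  refine ⟨?_, ?_, ?_⟩
  · intro r hr
    rw [length_mat]
    unfold mat at hr
    rw [List.mem_map] at hr
    obtain ⟨i, -, rfl⟩ := hr
    simp
  · intro i hi j hj
    rw [length_mat] at hi hj
    rw [ent_mat hi hj, ent_mat hj hi, hs]
  · intro i hi
    rw [length_mat] at hi
    rw [ent_mat hi hi, h0]

theorem adj_graphOf {N : ℕ} {a : ℕ → ℕ → Bool} (h0 : ∀ i, a i i = false)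
    (hs : ∀ i j, a i j = a j i) (i j : Fin (mat N a).length) :
    (graphOf (mat N a)).Adj i j ↔ a i j = true := by
  have hi : (i : ℕ) < N := i.2.trans_eq (length_mat N a)
  have hj : (j : ℕ) < N := j.2.trans_eq (length_mat N a)
  change (i ≠ j ∧ (ent (mat N a) i j = true ∨ ent (mat N a) j i = true)) ↔ _
  rw [ent_mat hi hj, ent_mat hj hi, hs j i, or_self]
  constructor
  · exact fun h => h.2
  · intro h
    refine ⟨?_, h⟩
    rintro rfl
    rw [h0] at h
    exact absurd h (by simp)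

theorem eq_one {n m : ℕ} (h : n = tot m 0 1) {lc : ℕ → Bool × ℕ} {G : SimpleGraph (Fin n)}
    (hG : ∀ i j, G.Adj i j ↔ adj m 0 1 lc i j = true) (hm : 2 ≤ m) :
    core G = nucleus G ↔ Sat m lc := by
  subst h
  rw [nucleus_G hG, core_one hG hm]

theorem eq_two {n m : ℕ} (h : n = tot m 1 2) {lc : ℕ → Bool × ℕ} {G : SimpleGraph (Fin n)}
    (hG : ∀ i j, G.Adj i j ↔ adj m 1 2 lc i j = true) (hm : 2 ≤ m) :
    core G = nucleus G ↔ ¬ Sat m lc := by
  subst h
  rw [nucleus_G hG, core_two hG hm]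

/-- a valid clause -/
def c0 : Cl := ((true, 0), (false, 0), (true, 0))

/-- padding -/
def pad (φ : List Cl) : List Cl := c0 :: c0 :: φ

theorem sat_pad (φ : List Cl) : SAT3 (pad φ) ↔ SAT3 φ := by
  constructor
  · rintro ⟨τ, hτ⟩
    exact ⟨τ, fun c hc => hτ c (by simp [pad, hc])⟩
  · rintro ⟨τ, hτ⟩
    refine ⟨τ, fun c hc => ?_⟩
    have h0 : τ 0 = true ∨ τ 0 = false ∨ τ 0 = true := by cases τ 0 <;> simp
    simp only [pad, List.mem_cons] at hc
    rcases hc with rfl | rfl | hc
    · exact h0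
    · exact h0
    · exact hτ c hc

/-- the reduction -/
def red (e s : ℕ) (φ : List Cl) : List (List Bool) :=
  mat (tot (pad φ).length e s) (adj (pad φ).length e s (ocf (pad φ)))

theorem red_valid (e s : ℕ) (φ : List Cl) : IsAdjMatrix (red e s φ) :=
  isAdj_mat (adj_irrefl _ _ _ _) (adj_symm _ _ _ _)

theorem red_one (φ : List Cl) : SAT3 φ ↔ CoreIsNucleus (red 0 1 φ) := by
  have h := eq_one (m := (pad φ).length) (lc := ocf (pad φ)) (G := graphOf (red 0 1 φ))
    (length_mat _ _) (adj_graphOf (adj_irrefl _ _ _ _) (adj_symm _ _ _ _)) (by simp [pad])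
  rw [← sat_pad, sat_iff]
  exact ⟨fun h' => ⟨red_valid 0 1 φ, h.2 h'⟩, fun h' => h.1 h'.2⟩

theorem red_two (φ : List Cl) : SAT3 φ ↔ ¬ CoreIsNucleus (red 1 2 φ) := by
  have h := eq_two (m := (pad φ).length) (lc := ocf (pad φ)) (G := graphOf (red 1 2 φ))
    (length_mat _ _) (adj_graphOf (adj_irrefl _ _ _ _) (adj_symm _ _ _ _)) (by simp [pad])
  rw [← sat_pad, sat_iff]
  exact ⟨fun h' h'' => h.1 h''.2 h', fun h' => by
    by_contra h''
    exact h' ⟨red_valid 1 2 φ, h.2 h''⟩⟩

section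

variable {α : Type} [TEnc α]

theorem poly_pad {φ : α → List Cl} (hφ : Poly φ) : Poly (fun a => pad (φ a)) :=
  Poly.cons (NPC.Poly.const _) (Poly.cons (NPC.Poly.const _) hφ)

theorem upoly_rest {m : α → ℕ} (hm : UPoly m) (e s : ℕ) : UPoly (fun a => rest (m a) e s) :=
  UPoly.add (UPoly.add (UPoly.mul (UPoly.const 3) hm) (UPoly.const e))
    (UPoly.mul (UPoly.const s) hm)

theorem upoly_tot {m : α → ℕ} (hm : UPoly m) (e s : ℕ) : UPoly (fun a => tot (m a) e s) :=
  UPoly.add (UPoly.mul (UPoly.const 2) (upoly_rest hm e s)) (UPoly.const 3)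

theorem poly_rest {m : α → ℕ} (hm : Poly m) (e s : ℕ) : Poly (fun a => rest (m a) e s) :=
  Poly.add (poly_addc (poly_mulc hm 3) e) (poly_mulc hm s)

theorem poly_kd {m i : α → ℕ} (hm : Poly m) (hi : Poly i) (e s : ℕ) :
    Poly (fun a => kd (m a) e s (i a)) := by
  have h3 := poly_addc (poly_mulc hm 3) e
  exact Poly.ite (Poly.decide_lt hi h3) (NPC.Poly.const 0)
    (Poly.ite (Poly.decide_lt hi (poly_rest hm e s))
      (Poly.add (NPC.Poly.const 1) (Poly.div (Poly.sub hi h3) hm)) (NPC.Poly.const (s + 1)))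

theorem poly_adj {m i j : α → ℕ} {φ : α → List Cl} (hm : Poly m) (hφ : Poly φ) (hi : Poly i)
    (hj : Poly j) (e s : ℕ) : Poly (fun a => adj (m a) e s (ocf (φ a)) (i a) (j a)) := by
  have ki := poly_kd hm hi e s
  have kj := poly_kd hm hj e s
  have h3 := poly_mulc hm 3
  have oi := poly_ocf hφ hi
  have oj := poly_ocf hφ hj
  exact Poly.and (Poly.not (Poly.decide_eq hi hj)) (Poly.or (Poly.decide_eq ki (NPC.Poly.const _))
    (Poly.or (Poly.not (Poly.decide_eq ki kj)) (Poly.and (Poly.decide_lt hi h3)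
      (Poly.and (Poly.decide_lt hj h3) (Poly.or (Poly.decide_eq (poly_divc hi 3) (poly_divc hj 3))
        (Poly.and (Poly.decide_eq (Poly.snd oi) (Poly.snd oj))
          (Poly.not (Poly.decide_eq (Poly.fst oi) (Poly.fst oj)))))))))

end

theorem poly_red (e s : ℕ) : Poly (red e s) := by
  have hφ : Poly (fun φ : List Cl => pad φ) := poly_pad Poly.id
  have hn : UPoly (fun φ : List Cl => tot (pad φ).length e s) := upoly_tot (UPoly.length hφ) e s
  refine NPC.Poly.map (F := fun (φ : List Cl) i => (List.range (tot (pad φ).length e s)).map fun j =>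
    adj (pad φ).length e s (ocf (pad φ)) i j) hn.range ?_
  refine NPC.Poly.map (F := fun (p : List Cl × ℕ) j =>
    adj (pad p.1).length e s (ocf (pad p.1)) p.2 j) (hn.comp (Poly.fst Poly.id)).range ?_
  have h1 : Poly (fun q : (List Cl × ℕ) × ℕ => pad q.1.1) :=
    hφ.comp (Poly.fst (Poly.fst Poly.id))
  exact poly_adj (Poly.length h1) h1 (Poly.snd (Poly.fst Poly.id)) (Poly.snd Poly.id) e s

theorem np_hard : HardPr IsAdjMatrix CoreIsNucleus :=
  hardPr_SAT3.trans (poly_red 0 1) (fun φ _ => red_valid 0 1 φ) (fun φ _ => red_one φ)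

theorem conp_hard : HardPr IsAdjMatrix (fun M => ¬ CoreIsNucleus M) :=
  hardPr_SAT3.trans (poly_red 1 2) (fun φ _ => red_valid 1 2 φ) (fun φ _ => red_two φ)

end Pool.Agent.Q230.CN
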