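import Pool.Agent.Q230.CN.Defs

/-!
# The graphs of the two reductions
-/

set_option autoImplicit false

namespace Pool.Agent.Q230.CN

open Finset

section general

variable {V : Type} [Fintype V] [DecidableEq V]

omit [DecidableEq V] in
theorem diff_empty (G : SimpleGraph V) : diff G ∅ = 0 := by
  simp [diff, nbr]

theorem nucleus_eq_empty {G : SimpleGraph V} (h : ∀ I : Finset V, G.IsIndepSet (I : Set V) →
    I.Nonempty → diff G I < 0) : nucleus G = ∅ := by
  have h0 : Critical G ∅ := by
    refine ⟨by simp, fun J hJ => ?_⟩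
    rw [diff_empty]
    rcases J.eq_empty_or_nonempty with rfl | hne
    · rw [diff_empty]
    · exact (h J hJ hne).le
  have hc : ∀ J, Critical G J → J = ∅ := by
    intro J hJ
    by_contra hne
    have h1 := h J hJ.1 (Finset.nonempty_iff_ne_empty.2 hne)
    have h2 := hJ.2 ∅ h0.1
    rw [diff_empty] at h2
    omega
  have hm : MaxCritical G ∅ := ⟨h0, fun J hJ => by rw [hc J hJ]⟩
  ext v
  simp only [nucleus, mem_filter, mem_univ, true_and, notMem_empty, iff_false]
  intro hv
  exact absurd (hv ∅ hm) (by simp)

theorem nucleus_of_clique {G : SimpleGraph V} {Q : Finset V}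
    (hQ : ∀ q ∈ Q, ∀ v, v ≠ q → G.Adj q v) (hc : Fintype.card V < 2 * Q.card)
    (h3 : 3 ≤ Fintype.card V) : nucleus G = ∅ := by
  classical
  apply nucleus_eq_empty
  intro I hI hne
  unfold diff
  by_cases hq : ∃ q ∈ I, q ∈ Q
  · obtain ⟨q, hqI, hqQ⟩ := hq
    have h1 : I = {q} := by
      refine Finset.eq_singleton_iff_unique_mem.2 ⟨hqI, fun v hv => ?_⟩
      by_contra hvq
      exact hI hqI hv (fun h => hvq h.symm) (hQ q hqQ v hvq)
    have h2 : univ.erase q ⊆ nbr G I := by
      intro v hv
      simp only [nbr, mem_filter, mem_univ, true_and]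
      exact ⟨q, hqI, hQ q hqQ v (Finset.ne_of_mem_erase hv)⟩
    have h4 := Finset.card_le_card h2
    rw [Finset.card_erase_of_mem (mem_univ _), Finset.card_univ] at h4
    rw [h1, Finset.card_singleton, ← h1]
    omega
  · push Not at hq
    obtain ⟨x, hx⟩ := hne
    have h2 : Q ⊆ nbr G I := by
      intro v hv
      simp only [nbr, mem_filter, mem_univ, true_and]
      exact ⟨x, hx, (hQ v hv x (fun h => hq x hx (h ▸ hv))).symm⟩
    have h4 := Finset.card_le_card h2
    have h5 : I ⊆ univ \ Q := by
      intro v hv
      simp only [mem_sdiff, mem_univ, true_and]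
      exact hq v hv
    have h6 := Finset.card_le_card h5
    rw [Finset.card_sdiff_of_subset (Finset.subset_univ _), Finset.card_univ] at h6
    have h7 := Finset.card_le_univ Q
    omega

end general

/-! ### The reduction graph

There are `3 m` vertices for the literals of the `m` clauses, `e` free vertices, `s` sides with `m`
vertices each, and a large clique. -/

/-- number of the vertices outside the clique -/
def rest (m e s : ℕ) : ℕ := 3 * m + e + s * m

/-- number of vertices -/
def tot (m e s : ℕ) : ℕ := 2 * rest m e s + 3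

/-- the kind of a vertex: `0` for literals and free vertices, `1, …, s` for the sides, `s + 1` for
the clique -/
def kd (m e s i : ℕ) : ℕ :=
  if i < 3 * m + e then 0 else if i < rest m e s then 1 + (i - (3 * m + e)) / m else s + 1

/-- adjacency -/
def adj (m e s : ℕ) (lc : ℕ → Bool × ℕ) (i j : ℕ) : Bool :=
  !decide (i = j) && (decide (kd m e s i = s + 1) || (!decide (kd m e s i = kd m e s j) ||
    (decide (i < 3 * m) && (decide (j < 3 * m) &&
      (decide (i / 3 = j / 3) || (decide ((lc i).2 = (lc j).2) &&
        !decide ((lc i).1 = (lc j).1)))))))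

theorem kd_zero {m e s i : ℕ} (h : kd m e s i = 0) : i < 3 * m + e := by
  unfold kd at h
  split_ifs at h with h1 h2
  · exact h1
  · exact absurd h (by rw [Nat.add_comm]; exact Nat.succ_ne_zero _)

/-- satisfiability -/
def Sat (m : ℕ) (lc : ℕ → Bool × ℕ) : Prop :=
  ∃ τ : ℕ → Bool, ∀ d < m, ∃ k < 3, τ (lc (3 * d + k)).2 = (lc (3 * d + k)).1

theorem adj_irrefl (m e s : ℕ) (lc : ℕ → Bool × ℕ) (i : ℕ) : adj m e s lc i i = false := by
  simp [adj]

theorem adj_symm (m e s : ℕ) (lc : ℕ → Bool × ℕ) (i j : ℕ) :
    adj m e s lc i j = adj m e s lc j i := by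
  rw [Bool.eq_iff_iff]
  simp only [adj, Bool.and_eq_true, Bool.or_eq_true, Bool.not_eq_true', decide_eq_false_iff_not,
    decide_eq_true_eq]
  constructor
  · rintro ⟨h1, h2⟩
    refine ⟨fun h => h1 h.symm, ?_⟩
    by_cases hk : kd m e s i = kd m e s j
    · rcases h2 with h2 | h2 | ⟨h2, h3, h4 | ⟨h4, h5⟩⟩
      · exact Or.inl (hk ▸ h2)
      · exact absurd hk h2
      · exact Or.inr (Or.inr ⟨h3, h2, Or.inl h4.symm⟩)
      · exact Or.inr (Or.inr ⟨h3, h2, Or.inr ⟨h4.symm, fun h => h5 h.symm⟩⟩)
    · exact Or.inr (Or.inl fun h => hk h.symm)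
  · rintro ⟨h1, h2⟩
    refine ⟨fun h => h1 h.symm, ?_⟩
    by_cases hk : kd m e s i = kd m e s j
    · rcases h2 with h2 | h2 | ⟨h2, h3, h4 | ⟨h4, h5⟩⟩
      · exact Or.inl (hk ▸ h2)
      · exact absurd hk.symm h2
      · exact Or.inr (Or.inr ⟨h3, h2, Or.inl h4.symm⟩)
      · exact Or.inr (Or.inr ⟨h3, h2, Or.inr ⟨h4.symm, fun h => h5 h.symm⟩⟩)
    · exact Or.inr (Or.inl hk)

section

variable {m e s : ℕ} {lc : ℕ → Bool × ℕ} {G : SimpleGraph (Fin (tot m e s))}

theorem nucleus_G (hG : ∀ i j, G.Adj i j ↔ adj m e s lc i j = true) :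
    nucleus G = ∅ := by
  classical
  refine nucleus_of_clique (Q := univ.filter fun i : Fin (tot m e s) => rest m e s ≤ i) ?_ ?_ ?_
  · intro q hq v hv
    simp only [mem_filter, mem_univ, true_and] at hq
    rw [hG]
    simp only [adj, Bool.and_eq_true, Bool.or_eq_true, Bool.not_eq_true',
      decide_eq_false_iff_not, decide_eq_true_eq]
    refine ⟨fun h => hv (Fin.ext h.symm), Or.inl ?_⟩
    unfold kd
    rw [if_neg (by unfold rest at hq; omega), if_neg (by omega)]
  · rw [Fintype.card_fin]
    have h1 : (univ.filter fun i : Fin (tot m e s) => rest m e s ≤ (i : ℕ)).card =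
        tot m e s - rest m e s := by
      have h2 := Finset.card_filter_add_card_filter_not (s := (univ : Finset (Fin (tot m e s))))
        (fun i : Fin (tot m e s) => rest m e s ≤ (i : ℕ))
      have h3 : (univ.filter fun i : Fin (tot m e s) => ¬ rest m e s ≤ (i : ℕ)).card =
          rest m e s := by
        have h4 : (univ.filter fun i : Fin (tot m e s) => ¬ rest m e s ≤ (i : ℕ)) =
            univ.filter fun i : Fin (tot m e s) => (i : ℕ) < rest m e s :=
          Finset.filter_congr fun i _ => by rw [not_le]
        rw [h4, Fin.card_filter_val_lt]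
        apply min_eq_right
        unfold tot
        omega
      rw [Finset.card_univ, Fintype.card_fin] at h2
      omega
    rw [h1]
    unfold tot
    omega
  · rw [Fintype.card_fin]
    unfold tot
    omega

/-- the vertices of an independent set with at least two elements have the same kind, which is
not that of the clique -/
theorem same_kd (hG : ∀ i j, G.Adj i j ↔ adj m e s lc i j = true)
    {I : Finset (Fin (tot m e s))} (hI : G.IsIndepSet (I : Set (Fin (tot m e s))))
    (h2 : 2 ≤ I.card) : ∃ k ≤ s, ∀ i ∈ I, kd m e s i = k := by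
  obtain ⟨a, ha, b, hb, hab⟩ := Finset.one_lt_card.1 h2
  have hpair : ∀ i ∈ I, ∀ j ∈ I, i ≠ j → kd m e s i = kd m e s j ∧ kd m e s i ≠ s + 1 := by
    intro i hi j hj hij
    have h : ¬ G.Adj i j := hI hi hj hij
    rw [hG] at h
    simp only [adj, Bool.and_eq_true, Bool.or_eq_true, Bool.not_eq_true',
      decide_eq_false_iff_not, decide_eq_true_eq, not_and, not_or] at h
    have h1 := h (fun h => hij (Fin.ext h))
    exact ⟨not_not.1 h1.2.1, h1.1⟩
  have hle : ∀ i : Fin (tot m e s), kd m e s i ≤ s + 1 := by
    intro i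
    unfold kd
    split_ifs with h3 h4
    · omega
    · have : (i - (3 * m + e)) / m < s := by
        rw [Nat.div_lt_iff_lt_mul (by
          rcases Nat.eq_zero_or_pos m with h0 | h0
          · subst h0
            unfold rest at h4
            omega
          · exact h0)]
        unfold rest at h4
        omega
      omega
    · omega
  have h1 := hpair a ha b hb hab
  refine ⟨kd m e s a, by have := hle a; omega, ?_⟩
  intro i hi
  by_cases hia : i = a
  · rw [hia]
  · exact (hpair i hi a ha hia).1

/-- number of literals in an independent set -/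
theorem lit_card (hG : ∀ i j, G.Adj i j ↔ adj m e s lc i j = true)
    {I : Finset (Fin (tot m e s))} (hI : G.IsIndepSet (I : Set (Fin (tot m e s))))
    (hlt : ∀ i ∈ I, (i : ℕ) < 3 * m) : I.card ≤ m ∧ (I.card = m → Sat m lc) := by
  classical
  have hadj : ∀ i ∈ I, ∀ j ∈ I, i ≠ j → (i : ℕ) / 3 ≠ (j : ℕ) / 3 ∧
      ((lc i).2 = (lc j).2 → (lc i).1 = (lc j).1) := by
    intro i hi j hj hij
    have h : ¬ G.Adj i j := hI hi hj hij
    rw [hG] at h
    simp only [adj, Bool.and_eq_true, Bool.or_eq_true, Bool.not_eq_true',
      decide_eq_false_iff_not, decide_eq_true_eq, not_and, not_or, not_not] at h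
    exact (h (fun h => hij (Fin.ext h))).2.2 (hlt i hi) (hlt j hj)
  have hinj : Set.InjOn (fun i : Fin (tot m e s) => (i : ℕ) / 3) I := by
    intro i hi j hj hij
    by_contra hne
    exact (hadj i hi j hj hne).1 hij
  have himg : I.image (fun i : Fin (tot m e s) => (i : ℕ) / 3) ⊆ Finset.range m := by
    intro d hd
    rw [Finset.mem_image] at hd
    obtain ⟨i, hi, rfl⟩ := hd
    rw [Finset.mem_range]
    have := hlt i hi
    omega
  have hcard := Finset.card_image_of_injOn hinj
  have hle := Finset.card_le_card himg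
  rw [Finset.card_range] at hle
  refine ⟨by omega, fun heq => ?_⟩
  have hsurj : I.image (fun i : Fin (tot m e s) => (i : ℕ) / 3) = Finset.range m := by
    apply Finset.eq_of_subset_of_card_le himg
    rw [Finset.card_range]
    omega
  refine ⟨fun x => decide (∃ i ∈ I, lc i = (true, x)), fun d hd => ?_⟩
  have : d ∈ I.image (fun i : Fin (tot m e s) => (i : ℕ) / 3) := by
    rw [hsurj, Finset.mem_range]
    exact hd
  rw [Finset.mem_image] at this
  obtain ⟨i, hi, hid⟩ := this
  refine ⟨i % 3, Nat.mod_lt _ (by norm_num), ?_⟩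
  have e1 : 3 * d + (i : ℕ) % 3 = i := by omega
  rw [e1]
  rcases hb : (lc i).1 with _ | _
  · rw [decide_eq_false_iff_not]
    rintro ⟨j, hj, hj'⟩
    have hij : i ≠ j := by
      rintro rfl
      rw [hj'] at hb
      exact absurd hb (by simp)
    have := (hadj i hi j hj hij).2 (by rw [hj'])
    rw [hb, hj'] at this
    exact absurd this (by simp)
  · rw [decide_eq_true_eq]
    exact ⟨i, hi, by rw [← hb]⟩

/-- a satisfying assignment gives an independent set of literals -/
theorem exists_lit (hG : ∀ i j, G.Adj i j ↔ adj m e s lc i j = true) (h : Sat m lc) :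
    ∃ I : Finset (Fin (tot m e s)), G.IsIndepSet (I : Set (Fin (tot m e s))) ∧
      (∀ i ∈ I, (i : ℕ) < 3 * m) ∧ I.card = m := by
  classical
  obtain ⟨τ, hτ⟩ := h
  have h1 : ∀ d : Fin m, ∃ k < 3, τ (lc (3 * d + k)).2 = (lc (3 * d + k)).1 := fun d => hτ d d.2
  choose k hk hτk using h1
  have hlt : ∀ d : Fin m, 3 * (d : ℕ) + k d < tot m e s := by
    intro d
    have := d.2
    have := hk d
    unfold tot rest
    have : 0 ≤ s * m := Nat.zero_le _
    omega
  set f : Fin m → Fin (tot m e s) := fun d => ⟨3 * (d : ℕ) + k d, hlt d⟩ with hf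
  have hfinj : Function.Injective f := by
    intro a b hab
    have h2 : 3 * (a : ℕ) + k a = 3 * (b : ℕ) + k b := congrArg Fin.val hab
    have := hk a
    have := hk b
    exact Fin.ext (by omega)
  refine ⟨univ.map ⟨f, hfinj⟩, ?_, ?_, ?_⟩
  · intro x hx y hy hxy hadj
    simp only [coe_map, Function.Embedding.coeFn_mk, coe_univ, Set.image_univ,
      Set.mem_range] at hx hy
    obtain ⟨a, rfl⟩ := hx
    obtain ⟨b, rfl⟩ := hy
    have hab : a ≠ b := fun h => hxy (by rw [h])
    have ka := hk a
    have kb := hk b
    have la := a.2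
    have lb := b.2
    have hab' : (a : ℕ) ≠ b := fun h => hab (Fin.ext h)
    rw [hG] at hadj
    simp only [adj, hf, Bool.and_eq_true, Bool.or_eq_true, Bool.not_eq_true',
      decide_eq_false_iff_not, decide_eq_true_eq] at hadj
    obtain ⟨-, h2⟩ := hadj
    have k1 : kd m e s (3 * (a : ℕ) + k a) = 0 := by
      unfold kd; rw [if_pos (by omega)]
    have k2 : kd m e s (3 * (b : ℕ) + k b) = 0 := by
      unfold kd; rw [if_pos (by omega)]
    rw [k1, k2] at h2
    rcases h2 with h2 | h2 | ⟨-, -, h2 | ⟨h2, h3⟩⟩
    · omega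
    · exact h2 rfl
    · omega
    · apply h3
      rw [← hτk a, ← hτk b, h2]
  · intro i hi
    simp only [mem_map, mem_univ, true_and, Function.Embedding.coeFn_mk] at hi
    obtain ⟨a, rfl⟩ := hi
    have ka := hk a
    have la := a.2
    simp only [hf]
    omega
  · rw [Finset.card_map, Finset.card_univ, Fintype.card_fin]

/-- the side `t` -/
noncomputable def side (m e s t : ℕ) : Finset (Fin (tot m e s)) :=
  univ.filter fun i => kd m e s i = t + 1

theorem kd_side (hm : 1 ≤ m) {t : ℕ} (ht : t < s) (i : ℕ) : kd m e s i = t + 1 ↔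
    3 * m + e + t * m ≤ i ∧ i < 3 * m + e + (t + 1) * m := by
  have h1 : (t + 1) * m ≤ s * m := Nat.mul_le_mul_right m (by omega)
  have h2 : (t + 1) * m = t * m + m := by ring
  unfold kd rest
  split_ifs with h3 h4
  · constructor
    · intro h; first | omega | exact h.elim
    · rintro ⟨h, -⟩; omega
  · constructor
    · intro h
      have h5 : (i - (3 * m + e)) / m = t := by omega
      have h6 := Nat.div_add_mod (i - (3 * m + e)) m
      have h7 := Nat.mod_lt (i - (3 * m + e)) (show 0 < m by omega)
      rw [h5, mul_comm] at h6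
      omega
    · rintro ⟨h5, h6⟩
      have h7 : (i - (3 * m + e)) / m = t :=
        Nat.div_eq_of_lt_le (by omega) (by omega)
      omega
  · constructor
    · intro h
      omega
    · rintro ⟨-, h⟩
      omega

theorem card_side (hm : 1 ≤ m) {t : ℕ} (ht : t < s) : (side m e s t).card = m := by
  classical
  have h1 : (t + 1) * m ≤ s * m := Nat.mul_le_mul_right m (by omega)
  have h2 : (t + 1) * m = t * m + m := by ring
  have hlt : ∀ d : Fin m, 3 * m + e + t * m + d < tot m e s := by
    intro d
    have := d.2
    unfold tot rest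
    omega
  have hinj : Function.Injective (fun d : Fin m => (⟨3 * m + e + t * m + d, hlt d⟩ :
      Fin (tot m e s))) := by
    intro a b hab
    have h3 := congrArg Fin.val hab
    simp only at h3
    exact Fin.ext (by omega)
  have h : side m e s t = univ.image (fun d : Fin m => (⟨3 * m + e + t * m + d, hlt d⟩ :
      Fin (tot m e s))) := by
    ext i
    simp only [side, mem_filter, mem_univ, true_and, mem_image]
    rw [kd_side hm ht]
    constructor
    · rintro ⟨h3, h4⟩
      exact ⟨⟨i - (3 * m + e + t * m), by omega⟩, Fin.ext (by simp only; omega)⟩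
    · rintro ⟨d, rfl⟩
      have := d.2
      simp only
      omega
  rw [h, Finset.card_image_of_injective _ hinj, Finset.card_univ, Fintype.card_fin]

theorem side_indep (hG : ∀ i j, G.Adj i j ↔ adj m e s lc i j = true) {t : ℕ} (ht : t < s) :
    G.IsIndepSet (side m e s t : Set (Fin (tot m e s))) := by
  intro i hi j hj hij h
  simp only [side, coe_filter, mem_univ, true_and, Set.mem_ofPred_eq] at hi hj
  rw [hG] at h
  simp only [adj, Bool.and_eq_true, Bool.or_eq_true, Bool.not_eq_true',
    decide_eq_false_iff_not, decide_eq_true_eq] at h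
  rcases h.2 with h1 | h1 | ⟨h1, -⟩
  · omega
  · exact h1 (hi.trans hj.symm)
  · unfold kd at hi
    rw [if_pos (by omega)] at hi
    omega

/-- an independent set of vertices of kind `t + 1` has at most `m` elements -/
theorem card_kind (hm : 1 ≤ m) {t : ℕ} (ht : t < s) {I : Finset (Fin (tot m e s))}
    (h : ∀ i ∈ I, kd m e s i = t + 1) : I ⊆ side m e s t ∧ I.card ≤ m := by
  have h1 : I ⊆ side m e s t := fun i hi => by
    simp only [side, mem_filter, mem_univ, true_and]
    exact h i hi
  exact ⟨h1, (Finset.card_le_card h1).trans (card_side hm ht).le⟩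

end

/-! ### First reduction -/

theorem core_one {m : ℕ} {lc : ℕ → Bool × ℕ} {G : SimpleGraph (Fin (tot m 0 1))}
    (hG : ∀ i j, G.Adj i j ↔ adj m 0 1 lc i j = true) (hm : 2 ≤ m) :
    core G = ∅ ↔ Sat m lc := by
  classical
  have hle : ∀ I : Finset (Fin (tot m 0 1)), G.IsIndepSet (I : Set (Fin (tot m 0 1))) →
      I.card ≤ m ∧ (I.card = m → Sat m lc ∨ I = side m 0 1 0) := by
    intro I hI
    by_cases h2 : 2 ≤ I.card
    · obtain ⟨k, hk, hkd⟩ := same_kd hG hI h2
      rcases Nat.eq_zero_or_pos k with rfl | hk0
      · have hlt : ∀ i ∈ I, (i : ℕ) < 3 * m := by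
          intro i hi
          have h := kd_zero (hkd i hi)
          omega
        have h := lit_card hG hI hlt
        exact ⟨h.1, fun h' => Or.inl (h.2 h')⟩
      · obtain rfl : k = 1 := by omega
        have h := card_kind (t := 0) (by omega) (by omega) hkd
        refine ⟨h.2, fun h' => Or.inr ?_⟩
        apply Finset.eq_of_subset_of_card_le h.1
        rw [card_side (by omega) (by omega), h']
    · exact ⟨by omega, fun h => by omega⟩
  have hside : G.IsMaximumIndepSet (side m 0 1 0) := by
    refine ⟨side_indep hG (by omega), fun J hJ => ?_⟩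
    rw [card_side (by omega) (by omega)]
    exact (hle J hJ).1
  constructor
  · intro hcore
    by_contra hns
    have hmem : ∀ i ∈ side m 0 1 0, i ∈ core G := by
      intro i hi
      simp only [core, mem_filter, mem_univ, true_and]
      intro I hI
      have h1 := hI.maximum (side m 0 1 0) hside.isIndepSet
      rw [card_side (by omega) (by omega)] at h1
      rcases (hle I hI.isIndepSet).2 (le_antisymm (hle I hI.isIndepSet).1 h1) with h2 | h2
      · exact absurd h2 hns
      · rw [h2]; exact hi
    have hpos : 0 < (side m 0 1 0).card := by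
      rw [card_side (by omega) (by omega)]
      omega
    obtain ⟨i, hi⟩ := Finset.card_pos.1 hpos
    have := hmem i hi
    rw [hcore] at this
    exact absurd this (Finset.notMem_empty i)
  · intro hs
    obtain ⟨I, hI, hlt, hcard⟩ := exists_lit hG hs
    have hImax : G.IsMaximumIndepSet I := ⟨hI, fun J hJ => by rw [hcard]; exact (hle J hJ).1⟩
    ext i
    simp only [core, mem_filter, mem_univ, true_and, notMem_empty, iff_false]
    intro h
    have h1 := hlt i (h I hImax)
    have h2 := h _ hside
    simp only [side, mem_filter, mem_univ, true_and] at h2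
    unfold kd at h2
    rw [if_pos (by omega)] at h2
    omega

/-! ### Second reduction -/

theorem core_two {m : ℕ} {lc : ℕ → Bool × ℕ} {G : SimpleGraph (Fin (tot m 1 2))}
    (hG : ∀ i j, G.Adj i j ↔ adj m 1 2 lc i j = true) (hm : 2 ≤ m) :
    core G = ∅ ↔ ¬ Sat m lc := by
  classical
  -- independent sets of kind zero
  have hzero : ∀ I : Finset (Fin (tot m 1 2)), G.IsIndepSet (I : Set (Fin (tot m 1 2))) →
      (∀ i ∈ I, kd m 1 2 i = 0) → (I.card ≤ m + 1 ∧ ((∀ i ∈ I, (i : ℕ) ≠ 3 * m) → I.card ≤ m) ∧
        (m < I.card → Sat m lc)) := by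
    intro I hI hk
    have hlt : ∀ i ∈ I, (i : ℕ) ≤ 3 * m := by
      intro i hi
      have h := kd_zero (hk i hi)
      omega
    set J : Finset (Fin (tot m 1 2)) := I.filter (fun i : Fin (tot m 1 2) => (i : ℕ) ≠ 3 * m)
      with hJ
    have hJI : J ⊆ I := Finset.filter_subset _ _
    have hJind : G.IsIndepSet (J : Set (Fin (tot m 1 2))) :=
      Set.Pairwise.mono (by exact_mod_cast hJI) hI
    have hJlt : ∀ i ∈ J, (i : ℕ) < 3 * m := by
      intro i hi
      rw [hJ, mem_filter] at hi
      have := hlt i hi.1
      omega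
    have hJc := lit_card hG hJind hJlt
    have hsplit : I.card = J.card + (I.filter (fun i : Fin (tot m 1 2) => ¬ ((i : ℕ) ≠ 3 * m))).card :=
      (Finset.card_filter_add_card_filter_not (s := I) (fun i : Fin (tot m 1 2) => (i : ℕ) ≠ 3 * m)).symm
    have hone : (I.filter (fun i : Fin (tot m 1 2) => ¬ ((i : ℕ) ≠ 3 * m))).card ≤ 1 := by
      rw [Finset.card_le_one]
      intro a ha b hb
      simp only [mem_filter, not_not] at ha hb
      exact Fin.ext (by omega)
    refine ⟨by omega, ?_, ?_⟩
    · intro h
      have : I = J := by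
        rw [hJ, Finset.filter_true_of_mem h]
      rw [this]
      exact hJc.1
    · intro h
      exact hJc.2 (by omega)
  have hcases : ∀ I : Finset (Fin (tot m 1 2)), G.IsIndepSet (I : Set (Fin (tot m 1 2))) →
      I.card ≤ m ∨ ∀ i ∈ I, kd m 1 2 i = 0 := by
    intro I hI
    by_cases h2 : 2 ≤ I.card
    · obtain ⟨k, hk, hkd⟩ := same_kd hG hI h2
      rcases Nat.eq_zero_or_pos k with rfl | hk0
      · exact Or.inr hkd
      · obtain ⟨t, rfl⟩ : ∃ t, k = t + 1 := ⟨k - 1, by omega⟩
        exact Or.inl (card_kind (by omega) (by omega) hkd).2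
    · exact Or.inl (by omega)
  constructor
  · intro hcore hs
    obtain ⟨I, hI, hlt, hcard⟩ := exists_lit hG hs
    -- the vertex `3 m`
    have hw : 3 * m < tot m 1 2 := by
      unfold tot rest
      omega
    set w : Fin (tot m 1 2) := ⟨3 * m, hw⟩ with hwdef
    have hwI : w ∉ I := fun h => by
      have := hlt w h
      simp only [hwdef] at this
      omega
    have hbig : G.IsIndepSet ((insert w I : Finset (Fin (tot m 1 2))) :
        Set (Fin (tot m 1 2))) := by
      have hna : ∀ i ∈ I, ¬ G.Adj w i := by
        intro i hi h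
        have hi' := hlt i hi
        rw [hG] at h
        simp only [adj, Bool.and_eq_true, Bool.or_eq_true, Bool.not_eq_true',
          decide_eq_false_iff_not, decide_eq_true_eq, hwdef] at h
        have k1 : kd m 1 2 (3 * m) = 0 := by unfold kd; rw [if_pos (by omega)]
        have k2 : kd m 1 2 (i : ℕ) = 0 := by unfold kd; rw [if_pos (by omega)]
        rw [k1, k2] at h
        rcases h.2 with h1 | h1 | ⟨h1, -⟩
        · omega
        · exact h1 rfl
        · omega
      intro x hx y hy hxy
      simp only [coe_insert, Set.mem_insert_iff, mem_coe] at hx hy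
      rcases hx with rfl | hx <;> rcases hy with rfl | hy
      · exact absurd rfl hxy
      · exact hna y hy
      · exact fun h => hna x hx h.symm
      · exact hI hx hy hxy
    have hcb : (insert w I).card = m + 1 := by
      rw [Finset.card_insert_of_notMem hwI, hcard]
    have hwcore : w ∈ core G := by
      simp only [core, mem_filter, mem_univ, true_and]
      intro J hJ
      have h1 := hJ.maximum _ hbig
      rw [hcb] at h1
      rcases hcases J hJ.isIndepSet with h2 | h2
      · omega
      · have h3 := hzero J hJ.isIndepSet h2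
        by_contra hwJ
        have h4 := h3.2.1 (fun i hi h => hwJ (by
          have : i = w := Fin.ext h
          rw [← this]; exact hi))
        omega
    rw [hcore] at hwcore
    exact absurd hwcore (Finset.notMem_empty _)
  · intro hns
    have hle : ∀ I : Finset (Fin (tot m 1 2)), G.IsIndepSet (I : Set (Fin (tot m 1 2))) →
        I.card ≤ m := by
      intro I hI
      rcases hcases I hI with h | h
      · exact h
      · by_contra hlt
        exact hns ((hzero I hI h).2.2 (by omega))
    have hside : ∀ t < 2, G.IsMaximumIndepSet (side m 1 2 t) := by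
      intro t ht
      refine ⟨side_indep hG ht, fun J hJ => ?_⟩
      rw [card_side (by omega) ht]
      exact hle J hJ
    ext i
    simp only [core, mem_filter, mem_univ, true_and, notMem_empty, iff_false]
    intro h
    have h1 := h _ (hside 0 (by omega))
    have h2 := h _ (hside 1 (by omega))
    simp only [side, mem_filter, mem_univ, true_and] at h1 h2
    omega

end Pool.Agent.Q230.CN
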